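import Mathlib

set_option autoImplicit false

/-! # A counting recursion on the double binary tree -/

namespace Pool.Agent.Zk62.Flow

/-- the weight of a ball of radius `r` -/
def wt : ℕ → ℕ
  | 0 => 1
  | 1 => 4
  | 2 => 10
  | 3 => 24
  | 4 => 50
  | 5 => 104
  | _ => 126

/-- the sum of `φ` over the words which extend `w` by at most `h` letters -/
def T : ℕ → (List Bool → ℕ) → List Bool → ℕ
  | 0, φ, w => φ w
  | h + 1, φ, w => φ w + (T h φ (true :: w) + T h φ (false :: w))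

theorem T_zero (h : ℕ) : ∀ w, T h (fun _ => 0) w = 0 := by
  induction h with
  | zero => intro w; rfl
  | succ h ih => intro w; simp [T, ih]

theorem T_add (h : ℕ) (φ ψ : List Bool → ℕ) : ∀ w,
    T h (fun u => φ u + ψ u) w = T h φ w + T h ψ w := by
  induction h with
  | zero => intro w; rfl
  | succ h ih => intro w; simp only [T, ih]; omega

theorem T_list {α : Type} (h : ℕ) (g : α → List Bool → ℕ) (L : List α) (w : List Bool) :
    T h (fun u => (L.map (fun p => g p u)).sum) w = (L.map (fun p => T h (g p) w)).sum := by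
  induction L with
  | nil => simpa using T_zero h w
  | cons p L ih =>
    simp only [List.map_cons, List.sum_cons]
    rw [T_add h (g p) (fun u => (L.map (fun p => g p u)).sum), ih]

theorem T_ge (h : ℕ) (φ : List Bool → ℕ) (hφ : ∀ u, 1 ≤ φ u) : ∀ w, 2 ^ (h + 1) ≤ T h φ w + 1 := by
  induction h with
  | zero => intro w; have := hφ w; simp only [T]; omega
  | succ h ih =>
    intro w
    have h1 := ih (true :: w)
    have h2 := ih (false :: w)
    have h3 := hφ w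
    have h4 : 2 ^ (h + 1 + 1) = 2 * 2 ^ (h + 1) := by ring
    simp only [T]
    omega

/-- a table of bounds: the row `6 r + h` contains the values for `m = 0, ..., 6` -/
def tabL : List (List ℕ) := [
  [1, 1, 0, 0, 0, 0, 0, 0, 0, 0, 0, 0, 0, 0],
  [1, 1, 1, 0, 0, 0, 0, 0, 0, 0, 0, 0, 0, 0],
  [1, 1, 1, 0, 1, 0, 0, 0, 0, 0, 0, 0, 0, 0],
  [1, 1, 1, 0, 1, 0, 1, 0, 0, 0, 0, 0, 0, 0],
  [1, 1, 1, 0, 1, 0, 1, 0, 1, 0, 0, 0, 0, 0],
  [1, 1, 1, 0, 1, 0, 1, 0, 1, 0, 1, 0, 0, 0],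
  [1, 1, 1, 1, 0, 0, 0, 0, 0, 0, 0, 0, 0, 0],
  [3, 3, 2, 1, 1, 0, 0, 0, 0, 0, 0, 0, 0, 0],
  [3, 3, 4, 1, 2, 0, 1, 0, 0, 0, 0, 0, 0, 0],
  [3, 3, 4, 1, 4, 0, 2, 0, 1, 0, 0, 0, 0, 0],
  [3, 3, 4, 1, 4, 0, 4, 0, 2, 0, 1, 0, 0, 0],
  [3, 3, 4, 1, 4, 0, 4, 0, 4, 0, 2, 0, 2, 2],
  [1, 1, 1, 1, 1, 1, 0, 0, 0, 0, 0, 0, 0, 0],
  [3, 3, 3, 3, 2, 1, 1, 0, 0, 0, 0, 0, 0, 0],
  [7, 7, 5, 3, 4, 1, 2, 0, 1, 0, 0, 0, 0, 0],
  [7, 7, 9, 3, 6, 1, 4, 0, 2, 0, 1, 0, 0, 0],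
  [7, 7, 9, 3, 10, 1, 6, 0, 4, 0, 2, 0, 2, 2],
  [7, 7, 9, 3, 10, 1, 10, 0, 6, 0, 6, 4, 4, 4],
  [1, 1, 1, 1, 1, 1, 1, 1, 0, 0, 0, 0, 0, 0],
  [3, 3, 3, 3, 3, 3, 2, 1, 1, 0, 0, 0, 0, 0],
  [7, 7, 7, 7, 5, 3, 4, 1, 2, 0, 1, 0, 0, 0],
  [15, 15, 11, 7, 9, 3, 6, 1, 4, 0, 2, 0, 2, 2],
  [15, 15, 19, 7, 13, 3, 10, 1, 6, 0, 6, 4, 4, 4],
  [15, 15, 19, 7, 21, 3, 14, 1, 14, 8, 10, 8, 12, 12],
  [1, 1, 1, 1, 1, 1, 1, 1, 1, 1, 0, 0, 0, 0],
  [3, 3, 3, 3, 3, 3, 3, 3, 2, 1, 1, 0, 0, 0],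
  [7, 7, 7, 7, 7, 7, 5, 3, 4, 1, 2, 0, 2, 2],
  [15, 15, 15, 15, 11, 7, 9, 3, 6, 1, 6, 4, 4, 4],
  [31, 31, 23, 15, 19, 7, 13, 3, 14, 9, 10, 8, 12, 12],
  [31, 31, 39, 15, 27, 7, 29, 19, 22, 17, 26, 24, 24, 24],
  [1, 1, 1, 1, 1, 1, 1, 1, 1, 1, 1, 1, 0, 0],
  [3, 3, 3, 3, 3, 3, 3, 3, 3, 3, 2, 1, 2, 2],
  [7, 7, 7, 7, 7, 7, 7, 7, 5, 3, 6, 5, 4, 4],
  [15, 15, 15, 15, 15, 15, 11, 7, 13, 11, 10, 9, 12, 12],
  [31, 31, 31, 31, 23, 15, 27, 23, 21, 19, 26, 25, 24, 24],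
  [63, 63, 47, 31, 55, 47, 43, 39, 53, 51, 49, 49, 52, 52]]

/-- the bound -/
def A (r h m : ℕ) (up : Bool) : ℕ := (tabL.getD (6 * r + h) []).getD (2 * m + (if up then 1 else 0)) 0

theorem A0 : ∀ r < 6, ∀ m < 7, ∀ up, (if m ≤ r then 1 else 0) ≤ A r 0 m up := by decide +kernel

theorem A1 : ∀ r < 6, ∀ h < 5, ∀ m < 6, ∀ up,
    (if m ≤ r then 1 else 0) + 2 * A r h (m + 1) true ≤ A r (h + 1) m up := by decide +kernel

theorem A2 : ∀ r < 6, ∀ h < 5, ∀ m < 5,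
    (if m + 1 ≤ r then 1 else 0) + (A r h (m + 1 + 1) true + A r h m false) ≤ A r (h + 1) (m + 1) false := by
  decide +kernel

theorem A3 : ∀ r < 6, ∀ h < 5, ∀ up, 2 * A r h 5 false ≤ A r (h + 1) 6 up ∧
    2 * A r h 6 false ≤ A r (h + 1) 6 up := by decide +kernel

theorem table1 : ∀ r < 6, ∀ m < 6, A r 5 m false + A r 5 (m + 1) true ≤ wt r := by decide +kernel

theorem table2 : ∀ r < 6, A r 5 6 false + A r 5 6 false ≤ wt r := by decide +kernel

theorem table {r a b : ℕ} (hr : r < 6) (ha : a ≤ 6) (hb : b ≤ 6)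
    (h : a = b + 1 ∨ b = a + 1 ∨ (a = 6 ∧ b = 6)) :
    A r 5 a (decide (b + 1 = a)) + A r 5 b (decide (a + 1 = b)) ≤ wt r := by
  have hd : ∀ m, decide (m + 1 + 1 = m) = false := by
    intro m; rw [decide_eq_false_iff_not]; omega
  rcases h with h | h | ⟨h, h'⟩
  · rw [h, hd b, add_comm]
    simp only [decide_true]
    exact table1 r hr b (by omega)
  · rw [h, hd a]
    simp only [decide_true]
    exact table1 r hr a (by omega)
  · rw [h, h']
    exact table2 r hr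

/-- the local rule at `w`, where `P` is the value at the predecessor -/
def Loc (F : List Bool → ℕ) (P : ℕ) (w : List Bool) : Prop :=
  (F w ≤ 5 → (F (true :: w) = F w + 1 ∧ F (false :: w) = F w + 1) ∨
    (P = F w + 1 ∧ ((F (true :: w) + 1 = F w ∧ F (false :: w) = F w + 1) ∨
      (F (true :: w) = F w + 1 ∧ F (false :: w) + 1 = F w)))) ∧
  (6 ≤ F w → (F (true :: w) = 5 ∨ F (true :: w) = 6) ∧ (F (false :: w) = 5 ∨ F (false :: w) = 6))

def Good (F : List Bool → ℕ) : ℕ → ℕ → List Bool → Prop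
  | 0, _, w => F w ≤ 6
  | h + 1, P, w => F w ≤ 6 ∧ Loc F P w ∧ Good F h (F w) (true :: w) ∧ Good F h (F w) (false :: w)

theorem bound {r : ℕ} (hr : r < 6) (F : List Bool → ℕ) (h : ℕ) : ∀ P w, h ≤ 5 → Good F h P w →
    T h (fun u => if F u ≤ r then 1 else 0) w ≤ A r h (F w) (decide (P + 1 = F w)) := by
  induction h with
  | zero =>
    intro P w _ hg
    have hg' : F w ≤ 6 := hg
    exact A0 r hr (F w) (by omega) _
  | succ h ih =>
    rintro P w hh5 ⟨h6, ⟨hl1, hl2⟩, ht, hf⟩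
    have i1 := ih _ _ (by omega) ht
    have i2 := ih _ _ (by omega) hf
    simp only [T]
    by_cases h5 : F w ≤ 5
    · rcases hl1 h5 with ⟨a, b⟩ | ⟨hP, hh⟩
      · rw [a] at i1
        rw [b] at i2
        simp only [decide_true] at i1 i2
        have := A1 r hr h (by omega) (F w) (by omega) (decide (P + 1 = F w))
        omega
      · have hup : decide (P + 1 = F w) = false := by rw [decide_eq_false_iff_not]; omega
        rw [hup]
        obtain ⟨m, hm⟩ : ∃ m, F w = m + 1 := ⟨F w - 1, by omega⟩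
        have k := A2 r hr h (by omega) m (by omega)
        rw [hm] at hh i1 i2 ⊢
        have hd : decide (m + 1 + 1 = m) = false := by rw [decide_eq_false_iff_not]; omega
        rcases hh with ⟨a, b⟩ | ⟨b, a⟩
        · have e : F (true :: w) = m := by omega
          rw [e, hd] at i1
          rw [b] at i2
          simp only [decide_true] at i2
          omega
        · have e : F (false :: w) = m := by omega
          rw [e, hd] at i2
          rw [b] at i1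
          simp only [decide_true] at i1
          omega
    · have e6 : F w = 6 := by omega
      obtain ⟨c1, c2⟩ := hl2 (by omega)
      obtain ⟨k1, k2⟩ := A3 r hr h (by omega) (decide (P + 1 = F w))
      have k : ∀ x, (F x = 5 ∨ F x = 6) → 2 * A r h (F x) (decide (F w + 1 = F x)) ≤
          A r (h + 1) 6 (decide (P + 1 = F w)) := by
        intro x hx
        rcases hx with hx | hx
        · rw [hx, e6]
          rw [e6] at k1
          exact k1
        · rw [hx, e6]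
          rw [e6] at k2
          exact k2
      have j1 := k _ c1
      have j2 := k _ c2
      have hr6 : ¬ F w ≤ r := by omega
      rw [if_neg hr6]
      have e7 : A r (h + 1) (F w) (decide (P + 1 = F w)) = A r (h + 1) 6 (decide (P + 1 = F w)) := by
        rw [e6]
      rw [e7]
      omega

end Pool.Agent.Zk62.Flow
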