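import Pool.Agent.H173FL.Tree
import Pool.Agent.Zk62.Flow.Count

set_option autoImplicit false
set_option linter.unusedSectionVars false

/-! # Graphs which are covered by few balls -/

namespace Pool.Agent.Zk62.Flow

open Finset Pool.Agent.TH676.Z Pool.Agent.Y335.FL Pool.Agent.Y358.IN Pool.Agent.H173FL

section cls

variable {V E : Type} [Fintype V] [DecidableEq V] [Fintype E] [DecidableEq E]

/-- the vertices with at least three proper edges are covered by balls with total weight at most
`125` -/
def ClW (src dst : E → V) : Prop :=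
  ∃ L : List (V × ℕ), (L.map (fun p => wt p.2)).sum ≤ 125 ∧
    ∀ x, 3 ≤ (crs src dst {x}).card → ∃ p ∈ L, Within src dst p.2 p.1 x

theorem ccW : CC (V := V) (E := E) ClW := by
  classical
  rintro src dst e ⟨L, hL, hc⟩ hne
  set φ := ctr (src e) (dst e) with hφ
  have hφb : φ (dst e) = src e := by simp [hφ, ctr]
  have hφa : φ (src e) = src e := by
    simp only [hφ, ctr]
    split_ifs <;> rfl
  have hφx : ∀ x, x ≠ dst e → φ x = x := by
    intro x hx
    simp [hφ, ctr, hx]
  have himg : ∀ x, x ≠ dst e → 3 ≤ (crs src dst {x}).card →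
      ∃ p ∈ L.map (fun p => (φ p.1, p.2)), Within (φ ∘ src) (φ ∘ dst) p.2 p.1 (φ x) := by
    intro x _ hx
    obtain ⟨p, hp, hw⟩ := hc x hx
    exact ⟨_, List.mem_map_of_mem hp, within_map _ _ _ _ _ _ hw⟩
  refine ⟨L.map (fun p => (φ p.1, p.2)), ?_, ?_⟩
  · rw [List.map_map]
    exact hL
  · intro x hx
    rw [hφ, Crit.crs_ctr, ← hφ] at hx
    by_cases h1 : x = dst e
    · exfalso
      have : univ.filter (fun y => φ y ∈ ({x} : Finset V)) = ∅ := by
        rw [filter_eq_empty_iff]
        intro y _ hy
        rw [mem_singleton, h1] at hy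
        by_cases h2 : y = dst e
        · rw [h2, hφb] at hy; exact hne hy
        · rw [hφx y h2] at hy; exact h2 hy
      rw [this] at hx
      have h0 : crs src dst ∅ = ∅ := by
        unfold crs
        rw [filter_eq_empty_iff]
        intro y _
        simp
      rw [h0] at hx
      simp at hx
    · by_cases h2 : x = src e
      · have hpre : univ.filter (fun y => φ y ∈ ({x} : Finset V)) = {src e, dst e} := by
          ext y
          rw [mem_filter, mem_singleton, mem_insert, mem_singleton, h2]
          constructor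
          · rintro ⟨_, hy⟩
            by_cases h3 : y = dst e
            · exact Or.inr h3
            · rw [hφx y h3] at hy; exact Or.inl hy
          · rintro (h3 | h3)
            · rw [h3, hφa]; exact ⟨mem_univ _, rfl⟩
            · rw [h3, hφb]; exact ⟨mem_univ _, rfl⟩
        rw [hpre] at hx
        have hea : e ∈ crs src dst {src e} := by
          rw [Cut3.mem_crs, mem_singleton, mem_singleton]
          intro h
          exact hne (h.1 rfl).symm
        have heb : e ∈ crs src dst {dst e} := by
          rw [Cut3.mem_crs, mem_singleton, mem_singleton]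
          intro h
          exact hne (h.2 rfl)
        have hsub : crs src dst {src e, dst e} ⊆
            (crs src dst {src e}).erase e ∪ (crs src dst {dst e}).erase e := by
          intro d hd
          rw [Cut3.mem_crs, mem_insert, mem_insert, mem_singleton, mem_singleton] at hd
          have hde : d ≠ e := by
            rintro rfl
            exact hd ⟨fun _ => Or.inr rfl, fun _ => Or.inl rfl⟩
          rw [mem_union, mem_erase, mem_erase, Cut3.mem_crs, Cut3.mem_crs, mem_singleton,
            mem_singleton, mem_singleton, mem_singleton]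
          by_contra hcon
          push Not at hcon
          obtain ⟨k1, k2⟩ := hcon
          have k1' := k1 hde
          have k2' := k2 hde
          apply hd
          rw [k1', k2']
        have hcard := (card_le_card hsub).trans (card_union_le _ _)
        rw [card_erase_of_mem hea, card_erase_of_mem heb] at hcard
        by_cases h3 : 3 ≤ (crs src dst {src e}).card
        · have := himg (src e) hne h3
          rwa [hφa, ← h2] at this
        · have h4 : 3 ≤ (crs src dst {dst e}).card := by
            by_contra h5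
            push Not at h3 h5
            omega
          obtain ⟨p, hp, hw⟩ := hc _ h4
          have hw' := within_map src dst φ _ _ _ hw
          rw [hφb, ← h2] at hw'
          exact ⟨_, List.mem_map_of_mem hp, hw'⟩
      · have hpre : univ.filter (fun y => φ y ∈ ({x} : Finset V)) = {x} := by
          ext y
          rw [mem_filter, mem_singleton, mem_singleton]
          constructor
          · rintro ⟨_, hy⟩
            by_cases h3 : y = dst e
            · rw [h3, hφb] at hy; exact absurd hy.symm h2
            · rw [hφx y h3] at hy; exact hy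
          · rintro rfl
            exact ⟨mem_univ _, hφx _ h1⟩
        rw [hpre] at hx
        have := himg x h1 hx
        rwa [hφx x h1] at this

end cls

section graph

variable {V : Type} [Fintype V] [DecidableEq V] {G : SimpleGraph V}

theorem Pth.mono' {m n : ℕ} {c x : V} (hmn : m ≤ n) : Pth G m c x → Pth G n c x :=
  fun ⟨p, hp, hl⟩ => ⟨p, hp, hl.trans hmn⟩

variable (G)

theorem fd_ex (c v : V) : ∃ n, n = 6 ∨ Pth G n c v := ⟨6, Or.inl rfl⟩

open Classical in
/-- the distance from `c`, cut off at `6` -/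
noncomputable def fd (c v : V) : ℕ := Nat.find (fd_ex G c v)

variable {G}

theorem fd_le6 (c v : V) : fd G c v ≤ 6 := by
  classical exact Nat.find_min' _ (Or.inl rfl)

theorem fd_le {c v : V} {n : ℕ} (h : Pth G n c v) : fd G c v ≤ n := by
  classical exact Nat.find_min' _ (Or.inr h)

theorem fd_spec {c v : V} (h : fd G c v ≤ 5) : Pth G (fd G c v) c v := by
  classical
  rcases Nat.find_spec (fd_ex G c v) with h1 | h1
  · have : fd G c v = 6 := h1
    omega
  · exact h1

theorem fd_lip {c v a : V} (h : G.Adj v a) : fd G c a ≤ fd G c v + 1 := by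
  by_cases h5 : fd G c v ≤ 5
  · obtain ⟨p, hp, hl⟩ := fd_spec h5
    exact fd_le (Pth.of_walk ⟨p.concat h, by rw [SimpleGraph.Walk.length_concat]; omega⟩)
  · have := fd_le6 (G := G) c a
    omega

/-- the local rule -/
theorem fd_loc (h12 : ∀ (w : V) (c : G.Walk w w), c.IsCycle → 12 ≤ c.length) {c v : V}
    (h5 : fd G c v ≤ 5) : ∃ z, (∀ a, G.Adj v a → a ≠ z → fd G c a = fd G c v + 1) ∧
      (G.Adj v z → fd G c z + 1 = fd G c v) := by
  obtain ⟨p, hp, hl⟩ := fd_spec h5
  have hpl : p.length = fd G c v := by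
    have h1 : fd G c v ≤ p.length := fd_le ⟨p, hp, le_refl _⟩
    omega
  refine ⟨p.penultimate, ?_, ?_⟩
  · intro a ha hne
    have h4 := ext_path h12 p hp (by omega) ha hne
    have h6 : fd G c a ≤ fd G c v + 1 := fd_lip ha
    by_contra hcon
    have h7 : fd G c a ≤ fd G c v := by omega
    obtain ⟨q, hq, hql⟩ := fd_spec (G := G) (c := c) (v := a) (by omega)
    have h8 := Ord.uniq h12 (hp.concat h4 ha) hq (by
      rw [SimpleGraph.Walk.length_concat]; omega)
    have h9 := congrArg SimpleGraph.Walk.length h8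
    rw [SimpleGraph.Walk.length_concat] at h9
    omega
  · intro hz
    by_cases hn : p.Nil
    · exfalso
      have h1 : c = v := hn.eq
      subst h1
      have h2 : p.penultimate = c := by
        cases p with
        | nil => rfl
        | cons _ _ => simp at hn
      rw [h2] at hz
      exact hz.ne rfl
    · have h1 : fd G c v ≤ fd G c p.penultimate + 1 := fd_lip hz.symm
      have h0 : 0 < p.length := by
        rw [Nat.pos_iff_ne_zero]
        intro h0
        exact hn (SimpleGraph.Walk.length_eq_zero_iff.mp h0)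
      have h2 : fd G c p.penultimate ≤ p.length - 1 := by
        refine fd_le (Pth.of_walk ⟨p.dropLast, ?_⟩)
        rw [SimpleGraph.Walk.length_dropLast]
      omega

section addr

variable (h12 : ∀ (w : V) (c : G.Walk w w), c.IsCycle → 12 ≤ c.length)
  (N : V → V → V × V)
  (hN : ∀ v pr : V, (∃ z, G.Adj v z) → G.Adj v (N v pr).1 ∧ G.Adj v (N v pr).2 ∧
    (N v pr).1 ≠ (N v pr).2 ∧ (N v pr).1 ≠ pr ∧ (N v pr).2 ≠ pr)

include hN in
theorem adj_addr {x y : V} (hxy : G.Adj x y) (w : List Bool) :
    G.Adj (addr N x y w).1 (addr N x y w).2 := by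
  induction w with
  | nil => exact hxy
  | cons b w ih =>
    obtain ⟨n1, n2, -⟩ := hN _ (addr N x y w).2 ⟨_, ih⟩
    cases b
    · exact n2.symm
    · exact n1.symm

include h12 hN in
theorem good_addr {x y : V} (hxy : G.Adj x y) (c : V) (h : ℕ) : ∀ w,
    Good (fun u => fd G c (addr N x y u).1) h (fd G c (addr N x y w).2) w := by
  induction h with
  | zero => intro w; exact fd_le6 _ _
  | succ h ih =>
    intro w
    have hadj := adj_addr N hN hxy w
    obtain ⟨n1, n2, n3, n4, n5⟩ := hN _ (addr N x y w).2 ⟨_, hadj⟩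
    have e1 : (addr N x y (true :: w)).1 = (N (addr N x y w).1 (addr N x y w).2).1 := rfl
    have e2 : (addr N x y (false :: w)).1 = (N (addr N x y w).1 (addr N x y w).2).2 := rfl
    refine ⟨fd_le6 _ _, ⟨?_, ?_⟩, ih (true :: w), ih (false :: w)⟩
    · intro h5
      simp only at h5 ⊢
      rw [e1, e2]
      obtain ⟨z, hz1, hz2⟩ := fd_loc h12 h5
      by_cases k1 : (N (addr N x y w).1 (addr N x y w).2).1 = z
      · right
        refine ⟨hz1 _ hadj (fun h => n4 (k1.trans h.symm)), Or.inl ⟨?_, hz1 _ n2 (fun h =>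
          n3 (k1.trans h.symm))⟩⟩
        rw [k1]
        exact hz2 (k1 ▸ n1)
      · by_cases k2 : (N (addr N x y w).1 (addr N x y w).2).2 = z
        · right
          refine ⟨hz1 _ hadj (fun h => n5 (k2.trans h.symm)), Or.inr ⟨hz1 _ n1 k1, ?_⟩⟩
          rw [k2]
          exact hz2 (k2 ▸ n2)
        · exact Or.inl ⟨hz1 _ n1 k1, hz1 _ n2 k2⟩
    · intro h6
      simp only at h6 ⊢
      rw [e1, e2]
      have k1 := fd_lip (G := G) (c := c) n1.symm
      have k2 := fd_lip (G := G) (c := c) n2.symm
      have k3 := fd_le6 (G := G) c (N (addr N x y w).1 (addr N x y w).2).1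
      have k4 := fd_le6 (G := G) c (N (addr N x y w).1 (addr N x y w).2).2
      constructor <;> omega

include h12 hN in
/-- at most `wt r` of the 126 addresses lead to vertices in a ball of radius `r` -/
theorem ball_count {x y : V} (hxy : G.Adj x y) (c : V) {r : ℕ} (hr : r < 6) :
    T 5 (fun u => if fd G c (addr N x y u).1 ≤ r then 1 else 0) [] +
      T 5 (fun u => if fd G c (addr N y x u).1 ≤ r then 1 else 0) [] ≤ wt r := by
  have b1 := bound hr _ 5 _ [] (le_refl _) (good_addr h12 N hN hxy c 5 [])
  have b2 := bound hr _ 5 _ [] (le_refl _) (good_addr h12 N hN hxy.symm c 5 [])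
  have e1 : (addr N x y []).1 = x := rfl
  have e2 : (addr N x y []).2 = y := rfl
  have e3 : (addr N y x []).1 = y := rfl
  have e4 : (addr N y x []).2 = x := rfl
  simp only [e1, e2] at b1
  simp only [e3, e4] at b2
  refine (Nat.add_le_add b1 b2).trans (table hr (fd_le6 _ _) (fd_le6 _ _) ?_)
  have l1 := fd_lip (G := G) (c := c) hxy
  have l2 := fd_lip (G := G) (c := c) hxy.symm
  have m1 := fd_le6 (G := G) c x
  have m2 := fd_le6 (G := G) c y
  have hne : fd G c x = fd G c y → fd G c x = 6 := by
    intro h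
    by_contra h6
    obtain ⟨z, hz1, hz2⟩ := fd_loc h12 (c := c) (v := x) (by omega)
    by_cases hyz : y = z
    · subst hyz
      have := hz2 hxy
      omega
    · have := hz1 y hxy hyz
      omega
  omega

include h12 hN in
/-- balls with total weight at most `125` do not cover -/
theorem no_cover {x y : V} (hxy : G.Adj x y) (L : List (V × ℕ))
    (hL : (L.map (fun p => wt p.2)).sum ≤ 125)
    (hc : ∀ v z, G.Adj v z → ∃ p ∈ L, Pth G p.2 p.1 v) : False := by
  have hr : ∀ p ∈ L, p.2 < 6 := by
    intro p hp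
    by_contra h6
    push Not at h6
    obtain ⟨k, hk⟩ : ∃ k, p.2 = k + 6 := ⟨p.2 - 6, by omega⟩
    have h1 : wt p.2 = 126 := by rw [hk]; rfl
    have h2 := List.single_le_sum (l := L.map (fun p => wt p.2)) (fun _ _ => Nat.zero_le _) (wt p.2)
      (List.mem_map_of_mem (f := fun p => wt p.2) hp)
    omega
  have hge : ∀ a b : V, G.Adj a b → ∀ u, 1 ≤ (L.map (fun p =>
      if fd G p.1 (addr N a b u).1 ≤ p.2 then 1 else 0)).sum := by
    intro a b hab u
    obtain ⟨p, hp, hpp⟩ := hc _ _ (adj_addr N hN hab u)
    have h2 := List.single_le_sum (l := L.map (fun p =>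
      if fd G p.1 (addr N a b u).1 ≤ p.2 then 1 else 0)) (fun _ _ => Nat.zero_le _) _
      (List.mem_map_of_mem (f := fun p => if fd G p.1 (addr N a b u).1 ≤ p.2 then 1 else 0) hp)
    rw [if_pos (fd_le hpp)] at h2
    exact h2
  have g1 := T_ge 5 _ (hge x y hxy) []
  have g2 := T_ge 5 _ (hge y x hxy.symm) []
  rw [T_list 5 (fun (p : V × ℕ) u => if fd G p.1 (addr N x y u).1 ≤ p.2 then 1 else 0)] at g1
  rw [T_list 5 (fun (p : V × ℕ) u => if fd G p.1 (addr N y x u).1 ≤ p.2 then 1 else 0)] at g2
  have key : ∀ L' : List (V × ℕ), (∀ p ∈ L', p.2 < 6) →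
      (L'.map (fun p => T 5 (fun u => if fd G p.1 (addr N x y u).1 ≤ p.2 then 1 else 0) [])).sum +
      (L'.map (fun p => T 5 (fun u => if fd G p.1 (addr N y x u).1 ≤ p.2 then 1 else 0) [])).sum ≤
      (L'.map (fun p => wt p.2)).sum := by
    intro L'
    induction L' with
    | nil => intro _; simp
    | cons p L' ih =>
      intro h
      have h1 := ih (fun q hq => h q (List.mem_cons_of_mem _ hq))
      have h2 := ball_count h12 N hN hxy p.1 (h p List.mem_cons_self)
      simp only [List.map_cons, List.sum_cons]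
      omega
  have := key L hr
  norm_num at g1 g2
  omega

end addr

end graph

/-- **Main step.** -/
theorem flow_of_ClW (hc : St_contract) {V E : Type} [Fintype V] [DecidableEq V]
    [Fintype E] [DecidableEq E] (src dst : E → V) (hcl : ClW src dst) (hbr : Br src dst ∅ ∅) :
    FlowOn src dst ∅ ∅ := by
  classical
  by_contra hn
  obtain ⟨s, d, ⟨L, hL, hcov⟩, hM⟩ := exists_minC ccW src dst hcl hbr hn
  have h3 := threeC hc hM
  have hgi := girthC hc hM
  by_cases hl : ∀ e, s e = d e
  · exact hM.nf (flow_of_loops hl)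
  push Not at hl
  obtain ⟨e, he⟩ := hl
  let G : SimpleGraph V :=
    { Adj := Adj s d
      symm := ⟨fun a b h => GiAux.adj_symm h⟩
      loopless := ⟨fun a h => h.1 rfl⟩ }
  have hG : ∀ a b, G.Adj a b ↔ Adj s d a b := fun a b => Iff.rfl
  have h12 : ∀ (w : V) (c : G.Walk w w), c.IsCycle → 12 ≤ c.length :=
    fun w c hc => Ord.cycle_len hgi G hG c hc
  have h3' : ∀ x y, G.Adj x y → ∃ a b c, G.Adj x a ∧ G.Adj x b ∧ G.Adj x c ∧ a ≠ b ∧ a ≠ c ∧ b ≠ c :=
    fun x y h => h3 x y h
  have hxy : G.Adj (s e) (d e) := ⟨he, e, Or.inl ⟨rfl, rfl⟩⟩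
  obtain ⟨N, hN⟩ : ∃ N : V → V → V × V, ∀ v pr : V, (∃ z, G.Adj v z) →
      G.Adj v (N v pr).1 ∧ G.Adj v (N v pr).2 ∧
      (N v pr).1 ≠ (N v pr).2 ∧ (N v pr).1 ≠ pr ∧ (N v pr).2 ≠ pr := by
    have : ∀ v pr : V, ∃ q : V × V, (∃ z, G.Adj v z) → G.Adj v q.1 ∧ G.Adj v q.2 ∧
        q.1 ≠ q.2 ∧ q.1 ≠ pr ∧ q.2 ≠ pr := by
      intro v pr
      by_cases hz : ∃ z, G.Adj v z
      · obtain ⟨z, hz⟩ := hz
        obtain ⟨a, b, h⟩ := two_more (pr := pr) (h3' v z hz)
        exact ⟨(a, b), fun _ => h⟩
      · exact ⟨(v, v), fun h => absurd h hz⟩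
    choose N hN using this
    exact ⟨N, hN⟩
  have hwalk : ∀ n c x, Within s d n c x → ∃ p : G.Walk c x, p.length ≤ n := by
    intro n
    induction n with
    | zero => intro c x h; cases h; exact ⟨SimpleGraph.Walk.nil, le_refl _⟩
    | succ n ih =>
      intro c x h
      rcases h with h | ⟨y, hy, e', he'⟩
      · obtain ⟨p, hp⟩ := ih c x h
        exact ⟨p, by omega⟩
      · obtain ⟨p, hp⟩ := ih c y hy
        by_cases hyx : y = x
        · subst hyx; exact ⟨p, by omega⟩
        · have hadj : G.Adj y x := ⟨hyx, e', he'⟩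
          exact ⟨p.concat hadj, by rw [SimpleGraph.Walk.length_concat]; omega⟩
  refine no_cover h12 N hN hxy L hL ?_
  intro v z hvz
  obtain ⟨p, hp, hw⟩ := hcov v (cut_three hM hvz)
  exact ⟨p, hp, Pth.of_walk (hwalk _ _ _ hw)⟩

end Pool.Agent.Zk62.Flow
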